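import Pool.Agent.Q241.CH.Prob

set_option autoImplicit false

/-!
# Sign sequences with vanishing correlations along a set of shifts without long intervals
-/

open Filter Topology Finset MeasureTheory

namespace Q132.CS

/-- fair coins -/
noncomputable def w0 : ℕ → Bool → ℝ := fun _ _ => 1 / 2

instance : ∀ j, IsProbabilityMeasure (Q241CH.wm (w0 j)) := fun j =>
  Q241CH.wm_prob (w0 j) (fun _ => by norm_num [w0]) (by simp [w0])

lemma exists_signs : ∃ y : ℕ → ℝ, (∀ n, y n = 1 ∨ y n = -1) ∧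
    ∀ (g r : ℕ) (D : Finset ℕ), 0 < g → D.Nonempty →
      Tendsto (fun N : ℕ => (∑ n ∈ Finset.range N, ∏ m ∈ D, y (g * n + r + m)) / (N : ℝ)) atTop (𝓝 0) := by
  classical
  have hw : ∀ j v, 0 ≤ w0 j v := fun _ _ => by norm_num [w0]
  let sg : Bool → ℝ := fun v => if v then 1 else -1
  have hmean : ∀ j, ∑ v, ((w0 j v : ℝ) : ℂ) * (sg v : ℂ) = 0 := by intro j; simp [sg, w0]
  have key : ∀ x : ℕ × ℕ × Finset ℕ, ∀ᵐ ω ∂(Measure.infinitePi fun j => Q241CH.wm (w0 j)),
      0 < x.1 → x.2.2.Nonempty → Tendsto (fun N : ℕ =>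
        (∑ n ∈ Finset.range N, ∏ m ∈ x.2.2, sg (ω (x.1 * n + x.2.1 + m))) / (N : ℝ)) atTop (𝓝 0) := by
    rintro ⟨g, r, D⟩
    by_cases hg : 0 < g
    swap
    · exact Eventually.of_forall fun ω h => absurd h hg
    by_cases hD : D.Nonempty
    swap
    · exact Eventually.of_forall fun ω _ h => absurd h hD
    set B : ℕ → Finset ℕ := fun n => D.image (fun m => g * n + r + m) with hB
    set A : ℕ := ∑ m ∈ D, m with hA
    have hDA : ∀ m ∈ D, m ≤ A := fun m hm =>
      Finset.single_le_sum (f := fun m : ℕ => m) (fun _ _ => Nat.zero_le _) hm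
    have hcount : ∀ n N, ((Finset.range N).filter fun n' => ¬ Disjoint (B n) (B n')).card ≤ 2 * A + 1 := by
      intro n N
      have hsub : ((Finset.range N).filter fun n' => ¬ Disjoint (B n) (B n')) ⊆
          Finset.Icc (n - A) (n + A) := by
        intro n' hn'
        rw [Finset.mem_filter, Finset.not_disjoint_iff] at hn'
        obtain ⟨_, z, hz, hz'⟩ := hn'
        obtain ⟨m, hm, rfl⟩ := Finset.mem_image.1 hz
        obtain ⟨m', hm', he⟩ := Finset.mem_image.1 hz'
        have h1 := hDA m hm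
        have h2 := hDA m' hm'
        rw [Finset.mem_Icc]
        constructor
        · by_contra hc
          have h3 : n' + A + 1 ≤ n := by omega
          have h4 : g * (n' + A + 1) ≤ g * n := Nat.mul_le_mul_left g h3
          have h5 : A + 1 ≤ g * (A + 1) := Nat.le_mul_of_pos_left _ hg
          have h6 : g * (n' + A + 1) = g * n' + g * (A + 1) := by ring
          omega
        · by_contra hc
          have h3 : n + A + 1 ≤ n' := by omega
          have h4 : g * (n + A + 1) ≤ g * n' := Nat.mul_le_mul_left g h3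
          have h5 : A + 1 ≤ g * (A + 1) := Nat.le_mul_of_pos_left _ hg
          have h6 : g * (n + A + 1) = g * n + g * (A + 1) := by ring
          omega
      refine (Finset.card_le_card hsub).trans ?_
      rw [Nat.card_Icc]
      omega
    have h1 := Q241CH.ae_avg w0 hw B (2 * A + 1) hcount (fun _ _ v => ((sg v : ℝ) : ℂ)) (by
      intro n j v
      rw [Complex.norm_real]
      simp only [sg]
      split_ifs <;> simp)
    filter_upwards [h1] with ω hω _ _
    have h2 : ∀ n, ∏ j ∈ B n, ∑ v, ((w0 j v : ℝ) : ℂ) * ((sg v : ℝ) : ℂ) = 0 := by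
      intro n
      obtain ⟨m, hm⟩ := hD
      exact Finset.prod_eq_zero (Finset.mem_image_of_mem _ hm) (hmean _)
    have h3 : ∀ n, ∏ j ∈ B n, ((sg (ω j) : ℝ) : ℂ) =
        ((∏ m ∈ D, sg (ω (g * n + r + m)) : ℝ) : ℂ) := by
      intro n
      rw [hB, Finset.prod_image fun m _ m' _ h => by simpa using h, Complex.ofReal_prod]
    have h4 : ∀ N : ℕ, ‖∑ n ∈ Finset.range N, (∏ j ∈ B n, ((sg (ω j) : ℝ) : ℂ) -
        ∏ j ∈ B n, ∑ v, ((w0 j v : ℝ) : ℂ) * ((sg v : ℝ) : ℂ))‖ / N =
        |(∑ n ∈ Finset.range N, ∏ m ∈ D, sg (ω (g * n + r + m))) / (N : ℝ)| := by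
      intro N
      rw [abs_div, abs_of_nonneg (show (0 : ℝ) ≤ N by positivity)]
      congr 1
      rw [Finset.sum_congr rfl fun n _ => by rw [h2 n, sub_zero, h3 n], ← Complex.ofReal_sum,
        Complex.norm_real, Real.norm_eq_abs]
    simp only [h4] at hω
    exact (tendsto_zero_iff_abs_tendsto_zero _).2 hω
  obtain ⟨ω, hω⟩ := (ae_all_iff.2 key).exists
  refine ⟨fun n => sg (ω n), fun n => ?_, fun g r D hg hD => hω (g, r, D) hg hD⟩
  simp only [sg]
  split_ifs
  · exact Or.inl rfl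
  · exact Or.inr rfl

/-- the modified sequence: the values at the multiples of `g` are the products of the next `g - 1` values -/
noncomputable def ff (y : ℕ → ℝ) (g : ℕ) (x : ℕ) : ℝ := if g ∣ x then ∏ i ∈ Finset.Ico 1 g, y (x + i) else y x

/-- the positions which enter -/
def EE (g r h : ℕ) : Finset ℕ := if g ∣ r + h then (Finset.Ico 1 g).image (fun i => h + i) else {h}

lemma ff_eq (y : ℕ → ℝ) (g q r h : ℕ) : ff y g (g * q + r + h) = ∏ m ∈ EE g r h, y (g * q + r + m) := by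
  unfold ff EE
  have h1 : g ∣ g * q + r + h ↔ g ∣ r + h := by
    rw [add_assoc]; exact (Nat.dvd_add_right (Dvd.intro _ rfl))
  by_cases h2 : g ∣ r + h
  · rw [if_pos (h1.2 h2), if_pos h2, Finset.prod_image fun i _ j _ hij => by simpa using hij]
    exact Finset.prod_congr rfl fun i _ => by rw [add_assoc (g * q + r)]
  · rw [if_neg (fun h => h2 (h1.1 h)), if_neg h2, Finset.prod_singleton]

lemma sign_pow {x : ℝ} (hx : x = 1 ∨ x = -1) (k : ℕ) : x ^ k = if Odd k then x else 1 := by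
  rcases hx with h | h
  · rw [h]; simp
  · rw [h]
    split_ifs with hk
    · exact hk.neg_one_pow
    · exact (Nat.not_odd_iff_even.1 hk).neg_one_pow

lemma prod_odd {y : ℕ → ℝ} (hy : ∀ n, y n = 1 ∨ y n = -1) (T : Finset ℕ) (E : ℕ → Finset ℕ) (n : ℕ) :
    ∏ h ∈ T, ∏ m ∈ E h, y (n + m) =
      ∏ m ∈ (T.biUnion E).filter (fun m => Odd (T.filter fun h => m ∈ E h).card), y (n + m) := by
  rw [Finset.prod_comm' (s' := fun m => T.filter fun h => m ∈ E h) (t' := T.biUnion E)]
  · rw [Finset.prod_filter]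
    refine Finset.prod_congr rfl fun m _ => ?_
    rw [Finset.prod_const, sign_pow (hy _)]
  · intro h m
    rw [Finset.mem_filter, Finset.mem_biUnion]
    exact ⟨fun hh => ⟨hh, h, hh⟩, fun hh => hh.1⟩

lemma run_of_empty {g r : ℕ} (hg : 0 < g) (T : Finset ℕ) (hT : T.Nonempty)
    (h : (T.biUnion (EE g r)).filter (fun m => Odd (T.filter fun h => m ∈ EE g r h).card) = ∅) :
    ∃ x, g ∣ r + x ∧ ∀ i < g, x + i ∈ T := by
  have heven : ∀ m, ∀ h0 ∈ T, m ∈ EE g r h0 → ∃ h' ∈ T, h' ≠ h0 ∧ m ∈ EE g r h' := by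
    intro m h0 hh0 hm
    have h1 : m ∉ (T.biUnion (EE g r)).filter (fun m => Odd (T.filter fun h => m ∈ EE g r h).card) := by
      rw [h]; simp
    rw [Finset.mem_filter, not_and] at h1
    have h2 := h1 (Finset.mem_biUnion.2 ⟨h0, hh0, hm⟩)
    have h3 : 1 < (T.filter fun h => m ∈ EE g r h).card := by
      have h4 : 0 < (T.filter fun h => m ∈ EE g r h).card :=
        Finset.card_pos.2 ⟨h0, Finset.mem_filter.2 ⟨hh0, hm⟩⟩
      have h5 : (T.filter fun h => m ∈ EE g r h).card ≠ 1 := fun hc => h2 (by rw [hc]; exact odd_one)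
      omega
    obtain ⟨h', hh', hne⟩ := Finset.exists_mem_ne h3 h0
    exact ⟨h', (Finset.mem_filter.1 hh').1, hne, (Finset.mem_filter.1 hh').2⟩
  -- a multiple in `T`
  obtain ⟨h0, hh0, hd0⟩ : ∃ h0 ∈ T, g ∣ r + h0 := by
    obtain ⟨h1, hh1⟩ := hT
    by_cases hd : g ∣ r + h1
    · exact ⟨h1, hh1, hd⟩
    · obtain ⟨h', hh', hne, hm⟩ := heven h1 h1 hh1 (by unfold EE; rw [if_neg hd]; simp)
      refine ⟨h', hh', ?_⟩
      by_contra hc
      unfold EE at hm
      rw [if_neg hc, Finset.mem_singleton] at hm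
      exact hne hm.symm
  refine ⟨h0, hd0, fun i hi => ?_⟩
  rcases Nat.eq_zero_or_pos i with hi0 | hi0
  · rw [hi0, add_zero]; exact hh0
  obtain ⟨h', hh', hne, hm⟩ := heven (h0 + i) h0 hh0 (by
    unfold EE; rw [if_pos hd0]
    exact Finset.mem_image_of_mem _ (Finset.mem_Ico.2 ⟨hi0, hi⟩))
  unfold EE at hm
  split_ifs at hm with hd
  · exfalso
    obtain ⟨j, hj, he⟩ := Finset.mem_image.1 hm
    rw [Finset.mem_Ico] at hj
    apply hne
    obtain ⟨a, ha⟩ := hd0
    obtain ⟨b, hb⟩ := hd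
    have h5 : a = b := by
      rcases lt_trichotomy a b with h6 | h6 | h6
      · have : g * (a + 1) ≤ g * b := Nat.mul_le_mul_left g h6
        rw [mul_add, mul_one] at this
        omega
      · exact h6
      · have : g * (b + 1) ≤ g * a := Nat.mul_le_mul_left g h6
        rw [mul_add, mul_one] at this
        omega
    rw [h5] at ha
    omega
  · rw [Finset.mem_singleton] at hm
    rw [hm]; exact hh'

lemma sum_blocks (u : ℕ → ℝ) (g Q : ℕ) :
    ∑ n ∈ Finset.range (g * Q), u n = ∑ r ∈ Finset.range g, ∑ q ∈ Finset.range Q, u (g * q + r) := by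
  induction Q with
  | zero => simp
  | succ Q ih =>
    rw [mul_add, mul_one, Finset.sum_range_add, ih, ← Finset.sum_add_distrib]
    exact Finset.sum_congr rfl fun r _ => (Finset.sum_range_succ _ _).symm

lemma sum_range_le (u : ℕ → ℝ) (hu : ∀ n, |u n| ≤ 1) (a b : ℕ) :
    |∑ n ∈ Finset.range (a + b), u n - ∑ n ∈ Finset.range a, u n| ≤ b := by
  rw [Finset.sum_range_add, add_sub_cancel_left]
  refine (Finset.abs_sum_le_sum_abs _ _).trans ?_
  refine (Finset.sum_le_sum fun n _ => hu _).trans ?_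
  simp

lemma avg_classes (u : ℕ → ℝ) (hu : ∀ n, |u n| ≤ 1) (g : ℕ) (hg : 0 < g) (c : ℕ → ℝ)
    (h : ∀ r < g, Tendsto (fun Q : ℕ => (∑ q ∈ Finset.range Q, u (g * q + r)) / (Q : ℝ)) atTop (𝓝 (c r))) :
    Tendsto (fun N : ℕ => (∑ n ∈ Finset.Icc 1 N, u n) / (N : ℝ)) atTop
      (𝓝 ((∑ r ∈ Finset.range g, c r) / g)) := by
  have hgr : (0 : ℝ) < g := by exact_mod_cast hg
  have h1 : Tendsto (fun Q : ℕ => (∑ r ∈ Finset.range g, (∑ q ∈ Finset.range Q, u (g * q + r)) / (Q : ℝ)))
      atTop (𝓝 (∑ r ∈ Finset.range g, c r)) :=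
    tendsto_finsetSum _ fun r hr => h r (Finset.mem_range.1 hr)
  have hdiv : Tendsto (fun N : ℕ => N / g) atTop atTop := by
    rw [tendsto_atTop]
    intro b
    filter_upwards [eventually_ge_atTop (b * g)] with N hN
    exact (Nat.le_div_iff_mul_le hg).2 hN
  have h2 := h1.comp hdiv
  have h3 : Tendsto (fun N : ℕ => ((N / g : ℕ) : ℝ) / (N : ℝ)) atTop (𝓝 (1 / g)) := by
    have h4 : Tendsto (fun N : ℕ => 1 / (g : ℝ) - (N % g : ℕ) / (g : ℝ) / (N : ℝ)) atTop (𝓝 (1 / g - 0)) := by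
      refine tendsto_const_nhds.sub ?_
      refine squeeze_zero (fun N => by positivity) (fun N => ?_) (tendsto_const_div_atTop_nhds_zero_nat 1)
      refine div_le_div_of_nonneg_right ?_ (by positivity)
      rw [div_le_one hgr]
      exact_mod_cast (Nat.mod_lt N hg).le
    rw [sub_zero] at h4
    refine h4.congr' ?_
    filter_upwards [eventually_ge_atTop 1] with N hN
    have hNr : (0 : ℝ) < N := by exact_mod_cast hN
    have h5 : (N : ℝ) = g * (N / g : ℕ) + (N % g : ℕ) := by exact_mod_cast (Nat.div_add_mod N g).symm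
    have h6 : ((N / g : ℕ) : ℝ) = (N - (N % g : ℕ)) / g := by
      rw [eq_div_iff hgr.ne']; linarith
    rw [h6]
    field_simp
  have h4 := h2.mul h3
  rw [mul_one_div] at h4
  have h5 : Tendsto (fun N : ℕ => ((g : ℝ) + 2) / (N : ℝ)) atTop (𝓝 0) := tendsto_const_div_atTop_nhds_zero_nat _
  refine tendsto_of_tendsto_of_dist h4 (squeeze_zero (fun _ => dist_nonneg) (fun N => ?_) h5)
  rcases Nat.eq_zero_or_pos N with hN | hN
  · subst hN
    simp
  have hNr : (0 : ℝ) < N := by exact_mod_cast hN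
  rw [Real.dist_eq]
  have h6 : ((fun Q : ℕ => (∑ r ∈ Finset.range g, (∑ q ∈ Finset.range Q, u (g * q + r)) / (Q : ℝ))) ∘
      fun N : ℕ => N / g) N * (((N / g : ℕ) : ℝ) / (N : ℝ)) =
      (∑ n ∈ Finset.range (g * (N / g)), u n) / (N : ℝ) := by
    rw [sum_blocks]
    simp only [Function.comp]
    rw [← Finset.sum_div]
    rcases Nat.eq_zero_or_pos (N / g) with h0 | h0
    · rw [h0]; simp
    · have : ((N / g : ℕ) : ℝ) ≠ 0 := by exact_mod_cast h0.ne'
      field_simp
  rw [h6, ← sub_div, abs_div, abs_of_pos hNr]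
  refine div_le_div_of_nonneg_right ?_ hNr.le
  have h7 : N = g * (N / g) + N % g := (Nat.div_add_mod N g).symm
  have h8 := sum_range_le u hu (g * (N / g)) (N % g)
  rw [← h7] at h8
  have h9 : ((N % g : ℕ) : ℝ) ≤ g := by exact_mod_cast (Nat.mod_lt N hg).le
  have h10 : ∑ n ∈ Finset.Icc 1 N, u n = ∑ n ∈ Finset.range N, u n - u 0 + u N := by
    have h11 : ∀ K : ℕ, ∑ n ∈ Finset.Icc 1 K, u n = ∑ n ∈ Finset.range K, u n - u 0 + u K := by
      intro K
      induction K with
      | zero => simp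
      | succ K ih => rw [Finset.sum_Icc_succ_top (by omega), ih, Finset.sum_range_succ]; ring
    exact h11 N
  rw [h10]
  have h12 := abs_le.1 h8
  have h13 := abs_le.1 (hu 0)
  have h14 := abs_le.1 (hu N)
  rw [abs_le]
  constructor <;> linarith [h12.1, h12.2, h13.1, h13.2, h14.1, h14.2]

end Q132.CS
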