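import Pool.Agent.Q132.CS.F

set_option autoImplicit false

/-!
# Sets of shifts without long intervals do not suffice for sign sequences
-/

open Filter Topology Finset

namespace Q132.CS

lemma ff_sign {y : ℕ → ℝ} (hy : ∀ n, y n = 1 ∨ y n = -1) (g x : ℕ) : ff y g x = 1 ∨ ff y g x = -1 := by
  unfold ff
  split_ifs
  · induction Finset.Ico 1 g using Finset.induction_on with
    | empty => simp
    | insert i s hi ih =>
      rw [Finset.prod_insert hi]
      rcases hy (x + i) with h | h <;> rcases ih with h' | h' <;> rw [h, h'] <;> norm_num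
  · exact hy x

lemma abs_prod_ff {y : ℕ → ℝ} (hy : ∀ n, y n = 1 ∨ y n = -1) (g : ℕ) (T : Finset ℕ) (n : ℕ) :
    |∏ h ∈ T, ff y g (n + h)| ≤ 1 := by
  rw [Finset.abs_prod]
  refine Finset.prod_le_one (fun _ _ => abs_nonneg _) fun h _ => ?_
  rcases ff_sign hy g (n + h) with h' | h' <;> rw [h'] <;> norm_num

/-- the mean of a product along a residue class -/
lemma class_tend {y : ℕ → ℝ} (hy : ∀ n, y n = 1 ∨ y n = -1)
    (hy2 : ∀ (g r : ℕ) (D : Finset ℕ), 0 < g → D.Nonempty →
      Tendsto (fun N : ℕ => (∑ n ∈ Finset.range N, ∏ m ∈ D, y (g * n + r + m)) / (N : ℝ)) atTop (𝓝 0))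
    {g : ℕ} (hg : 0 < g) (r : ℕ) (T : Finset ℕ) (hT : T.Nonempty)
    (hrun : ¬ ∃ x, g ∣ r + x ∧ ∀ i < g, x + i ∈ T) :
    Tendsto (fun Q : ℕ => (∑ q ∈ Finset.range Q, ∏ h ∈ T, ff y g (g * q + r + h)) / (Q : ℝ))
      atTop (𝓝 0) := by
  have hne : ((T.biUnion (EE g r)).filter
      (fun m => Odd (T.filter fun h => m ∈ EE g r h).card)).Nonempty := by
    rw [Finset.nonempty_iff_ne_empty]
    intro h
    exact hrun (run_of_empty hg T hT h)
  refine (hy2 g r _ hg hne).congr fun N => ?_
  congr 1
  refine Finset.sum_congr rfl fun q _ => ?_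
  rw [← prod_odd hy T (EE g r) (g * q + r)]
  exact Finset.prod_congr rfl fun h _ => (ff_eq y g q r h).symm

/-- **Sets of shifts without long intervals do not suffice.** -/
theorem not_suffice (S : Set ℕ) (g : ℕ) (hg : 0 < g) (hS : ¬ ∃ x, ∀ i < g, x + i ∈ S) :
    ∃ f : ℕ → ℝ, (∀ n, f n = 1 ∨ f n = -1) ∧
      (∀ T : Finset ℕ, (T : Set ℕ) ⊆ S → T.Nonempty →
        Tendsto (fun N : ℕ => (∑ n ∈ Finset.Icc 1 N, ∏ h ∈ T, f (n + h)) / (N : ℝ)) atTop (𝓝 0)) ∧
      ¬ Tendsto (fun N : ℕ => (∑ n ∈ Finset.Icc 1 N, ∏ h ∈ Finset.range g, f (n + h)) / (N : ℝ))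
        atTop (𝓝 0) := by
  obtain ⟨y, hy, hy2⟩ := exists_signs
  refine ⟨ff y g, ff_sign hy g, fun T hTS hT => ?_, fun hc => ?_⟩
  · have h1 := avg_classes (fun n => ∏ h ∈ T, ff y g (n + h)) (abs_prod_ff hy g T) g hg (fun _ => 0)
      (fun r _ => class_tend hy hy2 hg r T hT (by
        rintro ⟨x, _, hx⟩
        exact hS ⟨x, fun i hi => hTS (hx i hi)⟩))
    simpa using h1
  · have h1 := avg_classes (fun n => ∏ h ∈ Finset.range g, ff y g (n + h))
      (abs_prod_ff hy g (Finset.range g)) g hg (fun r => if r = 0 then 1 else 0) (fun r hr => ?_)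
    · have h2 : ∑ r ∈ Finset.range g, (if r = 0 then (1 : ℝ) else 0) = 1 := by
        rw [Finset.sum_ite_eq' (Finset.range g) 0 (fun _ => (1 : ℝ)), if_pos (Finset.mem_range.2 hg)]
      rw [h2] at h1
      have h3 := tendsto_nhds_unique h1 hc
      have : (0 : ℝ) < 1 / g := by positivity
      exact absurd h3 this.ne'
    · split_ifs with h0
      · subst h0
        have h2 : ∀ q : ℕ, ∏ h ∈ Finset.range g, ff y g (g * q + 0 + h) = 1 := by
          intro q
          have h3 : Finset.range g = insert 0 (Finset.Ico 1 g) := by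
            ext i
            rw [Finset.mem_insert, Finset.mem_range, Finset.mem_Ico]
            omega
          rw [h3, Finset.prod_insert (by simp)]
          have h4 : ff y g (g * q + 0 + 0) = ∏ i ∈ Finset.Ico 1 g, y (g * q + 0 + i) := by
            unfold ff
            rw [if_pos (by simp)]
          have h5 : ∏ i ∈ Finset.Ico 1 g, ff y g (g * q + 0 + i) =
              ∏ i ∈ Finset.Ico 1 g, y (g * q + 0 + i) := by
            refine Finset.prod_congr rfl fun i hi => ?_
            unfold ff
            rw [Finset.mem_Ico] at hi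
            rw [if_neg]
            intro hd
            rw [add_zero] at hd
            have h6 := (Nat.dvd_add_right (Dvd.intro q rfl)).1 hd
            exact absurd (Nat.le_of_dvd (by omega) h6) (by omega)
          rw [h4, h5, ← Finset.prod_mul_distrib]
          refine Finset.prod_eq_one fun i _ => ?_
          rcases hy (g * q + 0 + i) with h | h <;> rw [h] <;> norm_num
        refine (tendsto_const_nhds (x := (1 : ℝ))).congr' ?_
        filter_upwards [eventually_ge_atTop 1] with Q hQ
        have hQr : (Q : ℝ) ≠ 0 := by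
          have : 0 < Q := hQ
          exact_mod_cast this.ne'
        rw [Finset.sum_congr rfl fun q _ => h2 q]
        simp [hQr]
      · refine class_tend hy hy2 hg r _ (Finset.nonempty_range_iff.2 hg.ne') ?_
        rintro ⟨x, hx, hx2⟩
        have h2 := hx2 (g - 1) (by omega)
        rw [Finset.mem_range] at h2
        have h3 : x = 0 := by omega
        rw [h3, add_zero] at hx
        exact absurd (Nat.le_of_dvd (by omega) hx) (by omega)

end Q132.CS
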