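import Pool.Agent.Q132.CS.D

set_option autoImplicit false

/-!
# The transfer inequality for several complex-valued functions
-/

open Filter Topology Finset

namespace Q132.CS

lemma sum_shiftC (G : ℤ → ℂ) (R : ℕ) (j : ℕ) :
    ∑ m ∈ Finset.Icc 1 R, G ((m : ℤ) + ((j + 1 : ℕ) : ℤ)) =
      ∑ m ∈ Finset.Icc 1 R, G ((m : ℤ) + (j : ℤ)) - G (1 + j) + G (R + j + 1) := by
  induction R with
  | zero =>
    simp only [Finset.Icc_eq_empty_of_lt (zero_lt_one), Finset.sum_empty]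
    push_cast
    have : (0 : ℤ) + j + 1 = 1 + j := by ring
    rw [this]; ring
  | succ R ih =>
    rw [Finset.sum_Icc_succ_top (by omega), Finset.sum_Icc_succ_top (by omega), ih]
    push_cast
    have h1 : (R : ℤ) + 1 + (j + 1) = R + 1 + j + 1 := by ring
    have h2 : (R : ℤ) + j + 1 = R + 1 + j := by ring
    rw [h1, h2]; ring

lemma sum_shift_leC (G : ℤ → ℂ) (hG : ∀ m, ‖G m‖ ≤ 1) (R : ℕ) (j : ℕ) :
    ‖∑ m ∈ Finset.Icc 1 R, G (m : ℤ) - ∑ m ∈ Finset.Icc 1 R, G ((m : ℤ) + (j : ℤ))‖ ≤ 2 * j := by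
  induction j with
  | zero => simp
  | succ j ih =>
    rw [sum_shiftC]
    have h1 : ∑ m ∈ Finset.Icc 1 R, G (m : ℤ) - (∑ m ∈ Finset.Icc 1 R, G ((m : ℤ) + (j : ℤ)) -
        G (1 + j) + G (R + j + 1)) = (∑ m ∈ Finset.Icc 1 R, G (m : ℤ) -
        ∑ m ∈ Finset.Icc 1 R, G ((m : ℤ) + (j : ℤ))) + (G (1 + j) - G (R + j + 1)) := by ring
    rw [h1]
    refine (norm_add_le _ _).trans ?_
    have h2 := norm_sub_le (G (1 + j)) (G (R + j + 1))
    have h3 := hG (1 + j)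
    have h4 := hG (R + j + 1)
    push_cast
    linarith

lemma shift_avgC (G : ℤ → ℂ) (hG : ∀ m, ‖G m‖ ≤ 1) (R M D : ℕ) :
    ‖(M : ℂ) * ∑ m ∈ Finset.Icc 1 R, G (m : ℤ) -
      ∑ m ∈ Finset.Icc 1 R, ∑ i : Fin M, G ((m : ℤ) + D * ((i : ℕ) : ℤ))‖ ≤ M * (2 * (D * M)) := by
  have h1 : (M : ℂ) * ∑ m ∈ Finset.Icc 1 R, G (m : ℤ) -
      ∑ m ∈ Finset.Icc 1 R, ∑ i : Fin M, G ((m : ℤ) + D * ((i : ℕ) : ℤ)) =
      ∑ i : Fin M, (∑ m ∈ Finset.Icc 1 R, G (m : ℤ) -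
        ∑ m ∈ Finset.Icc 1 R, G ((m : ℤ) + ((D * (i : ℕ) : ℕ) : ℤ))) := by
    rw [Finset.sum_sub_distrib, Finset.sum_comm]
    simp
  rw [h1]
  refine (norm_sum_le _ _).trans ?_
  have h0 : ∀ i ∈ (Finset.univ : Finset (Fin M)), ‖∑ m ∈ Finset.Icc 1 R, G (m : ℤ) -
        ∑ m ∈ Finset.Icc 1 R, G ((m : ℤ) + ((D * (i : ℕ) : ℕ) : ℤ))‖ ≤ 2 * ((D : ℝ) * M) := by
    intro i _
    refine (sum_shift_leC G hG R _).trans ?_
    have : ((i : ℕ) : ℝ) ≤ M := by exact_mod_cast i.2.le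
    push_cast
    have h2 : (0 : ℝ) ≤ D := by positivity
    nlinarith
  have h3 := Finset.sum_le_card_nsmul _ _ _ h0
  rwa [Finset.card_univ, Fintype.card_fin, nsmul_eq_mul] at h3

/-- **The transfer inequality, complex version.** -/
theorem assembleC {k : ℕ} (F : Fin k → ℤ → ℂ) (hF : ∀ j m, ‖F j m‖ ≤ 1) (c : ℂ) (hc : ‖c‖ ≤ 1)
    {d : ℤ} (hd : 0 < d) (t : ℤ) (h : Fin k → ℤ) (D M : ℕ) (hM : 0 < M) {θ B : ℝ}
    (bad : ℤ → Prop) [DecidablePred bad]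
    (hB : ∀ R : ℕ, (((Finset.Icc 1 R).filter (fun x : ℕ => bad x)).card : ℝ) ≤ θ * R + B)
    (hgood : ∀ m : ℤ, (∀ j, ¬ bad (m + h j)) → ∏ j, F j (d * (m + h j)) = c * ∏ j, F j (m + h j))
    (𝒩 : Set ℕ) {C : ℝ} (hC : 0 ≤ C)
    (hN : ∀ x : ℕ, 1 ≤ x → ∃ N' ∈ 𝒩, x ≤ N' ∧ (N' : ℝ) ≤ C * x)
    {η : ℝ} (hη : 0 ≤ η) (W : ℤ → ℝ) (hW0 : ∀ n, 0 ≤ W n)
    (hWZ : ∀ n : ℤ, ‖∑ i : Fin M, ∏ j, F j (n + (t + d * (D * ((i : ℕ) : ℤ) + h j)))‖ ≤ η * M + M * W n)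
    {κ : ℝ} (hκ : 0 ≤ κ) (err : ℕ → ℝ) (herr : Tendsto err (atTop ⊓ 𝓟 𝒩) (𝓝 0))
    (hsum : ∀ N : ℕ, ∑ n ∈ Finset.Icc 1 N, W n ≤ (κ + err N) * N) {ε : ℝ} (hε : 0 < ε) (hθ0 : 0 ≤ θ)
    (hB0 : 0 ≤ B) :
    ∃ R0 : ℕ, ∀ R ≥ R0, ‖c‖ * ‖∑ m ∈ Finset.Icc 1 R, ∏ j, F j ((m : ℤ) + h j)‖ ≤
      (2 * k * θ + η + C * d * κ + ε) * R := by
  classical
  have hprod1 : ∀ (v : Fin k → ℤ), ‖∏ j, F j (v j)‖ ≤ 1 := by
    intro v
    rw [norm_prod]
    exact Finset.prod_le_one (fun _ _ => norm_nonneg _) fun j _ => hF j _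
  set V : ℤ → ℂ := fun m => ∏ j, F j (d * (m + h j)) with hV
  set U : ℤ → ℂ := fun m => ∏ j, F j (m + h j) with hU
  set H : Finset ℤ := Finset.univ.image h with hH
  have hHk : (H.card : ℝ) ≤ k := by
    have : H.card ≤ k := Finset.card_image_le.trans (by simp)
    exact_mod_cast this
  obtain ⟨a, ha⟩ := bound_H H
  -- step one
  have S1 : ∀ R : ℕ, ‖c * ∑ m ∈ Finset.Icc 1 R, U (m : ℤ) - ∑ m ∈ Finset.Icc 1 R, V (m : ℤ)‖ ≤
      2 * (k * (a + (θ * ((R : ℝ) + a) + B))) := by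
    intro R
    have h1 := bad_all bad hB H ha R
    rw [Finset.mul_sum, ← Finset.sum_sub_distrib]
    refine (norm_sum_le _ _).trans ?_
    have h2 : ∀ m ∈ Finset.Icc 1 R, ‖c * U (m : ℤ) - V (m : ℤ)‖ ≤
        if (∃ x ∈ H, bad ((m : ℤ) + x)) then 2 else 0 := by
      intro m _
      split_ifs with hb
      · refine (norm_sub_le _ _).trans ?_
        rw [norm_mul]
        have h3 : ‖U (m : ℤ)‖ ≤ 1 := hprod1 _
        have h4 : ‖V (m : ℤ)‖ ≤ 1 := hprod1 _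
        have h5 : ‖c‖ * ‖U (m : ℤ)‖ ≤ 1 := mul_le_one₀ hc (norm_nonneg _) h3
        linarith
      · push Not at hb
        have h3 := hgood (m : ℤ) fun j => hb (h j) (Finset.mem_image_of_mem h (Finset.mem_univ j))
        simp only [hU, hV]
        rw [h3, sub_self, norm_zero]
    refine (Finset.sum_le_sum h2).trans ?_
    rw [← Finset.sum_filter, Finset.sum_const, nsmul_eq_mul]
    have h6 : (H.card : ℝ) * (a + (θ * ((R : ℝ) + a) + B)) ≤ k * (a + (θ * ((R : ℝ) + a) + B)) :=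
      mul_le_mul_of_nonneg_right hHk (by positivity)
    linarith
  have S2 : ∀ R : ℕ, ‖(M : ℂ) * ∑ m ∈ Finset.Icc 1 R, V (m : ℤ) -
      ∑ m ∈ Finset.Icc 1 R, ∑ i : Fin M, V ((m : ℤ) + D * ((i : ℕ) : ℤ))‖ ≤ M * (2 * (D * M)) :=
    fun R => shift_avgC V (fun m => hprod1 _) R M D
  set Z : ℤ → ℂ := fun n => ∑ i : Fin M, ∏ j, F j (n + (t + d * (D * ((i : ℕ) : ℤ) + h j))) with hZ
  have S3 : ∀ m : ℤ, ∑ i : Fin M, V (m + D * ((i : ℕ) : ℤ)) = Z (d * m - t) := by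
    intro m
    rw [hZ]
    refine Finset.sum_congr rfl fun i _ => ?_
    simp only [hV]
    refine Finset.prod_congr rfl fun j _ => ?_
    congr 1
    ring
  have hZM : ∀ n, ‖Z n‖ ≤ M := by
    intro n
    refine (norm_sum_le _ _).trans ?_
    refine (Finset.sum_le_sum fun i _ => hprod1 _).trans ?_
    simp
  have hMpos : (0 : ℝ) < M := by exact_mod_cast hM
  have hd' : (0 : ℝ) < d := by exact_mod_cast hd
  have S4 : ∀ R N' : ℕ, d * R - t ≤ N' → ∑ m ∈ Finset.Icc 1 R, ‖Z (d * (m : ℤ) - t)‖ ≤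
      t.natAbs * M + (η * M * R + M * ((κ + err N') * N')) := by
    intro R N' hRN
    rw [← Finset.sum_filter_add_sum_filter_not (Finset.Icc 1 R) (fun m : ℕ => 1 ≤ d * (m : ℤ) - t)]
    have h1 : ∑ m ∈ (Finset.Icc 1 R).filter (fun m : ℕ => ¬ 1 ≤ d * (m : ℤ) - t),
        ‖Z (d * (m : ℤ) - t)‖ ≤ t.natAbs * M := by
      refine (Finset.sum_le_card_nsmul _ _ (M : ℝ) fun m _ => hZM _).trans ?_
      rw [nsmul_eq_mul]
      exact mul_le_mul_of_nonneg_right (by exact_mod_cast card_small hd t R) hMpos.le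
    have h2 : ∑ m ∈ (Finset.Icc 1 R).filter (fun m : ℕ => 1 ≤ d * (m : ℤ) - t),
        ‖Z (d * (m : ℤ) - t)‖ ≤
        ∑ m ∈ (Finset.Icc 1 R).filter (fun m : ℕ => 1 ≤ d * (m : ℤ) - t), (η * M) +
          M * ∑ m ∈ (Finset.Icc 1 R).filter (fun m : ℕ => 1 ≤ d * (m : ℤ) - t), W (d * (m : ℤ) - t) := by
      rw [Finset.mul_sum, ← Finset.sum_add_distrib]
      exact Finset.sum_le_sum fun m _ => hWZ _
    have h3 := sum_sub W hW0 hd t R N' hRN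
    have h4 := h3.trans (hsum N')
    have h5 : ∑ m ∈ (Finset.Icc 1 R).filter (fun m : ℕ => 1 ≤ d * (m : ℤ) - t), (η * M) ≤
        η * M * R := by
      have h6 : ∑ m ∈ Finset.Icc 1 R, (η * (M : ℝ)) = η * M * R := by simp; ring
      rw [← h6]
      exact Finset.sum_le_sum_of_subset_of_nonneg (Finset.filter_subset _ _) fun _ _ _ => by positivity
    have h6 : (M : ℝ) * ∑ m ∈ (Finset.Icc 1 R).filter (fun m : ℕ => 1 ≤ d * (m : ℤ) - t),
        W (d * (m : ℤ) - t) ≤ M * ((κ + err N') * N') := mul_le_mul_of_nonneg_left h4 hMpos.le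
    linarith
  set δ : ℝ := min 1 (ε / (2 * (C * d + 1))) with hδ
  have hδ0 : 0 < δ := lt_min one_pos (by positivity)
  have hev : ∀ᶠ N in atTop ⊓ 𝓟 𝒩, err N ≤ δ := by
    have := herr.eventually (gt_mem_nhds hδ0)
    exact this.mono fun N hN => hN.le
  rw [eventually_inf_principal, eventually_atTop] at hev
  obtain ⟨N0, hN0⟩ := hev
  set K0 : ℝ := 2 * (k * (a + (θ * a + B))) + 2 * (D * M) + t.natAbs + (κ + 1) * (C * t.natAbs) with hK0
  have hK00 : 0 ≤ K0 := by positivity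
  obtain ⟨R1, hR1⟩ := exists_nat_ge (2 * K0 / ε)
  refine ⟨max (max N0 1) R1, fun R hR => ?_⟩
  have hRN0 : N0 ≤ R := (le_max_left _ _).trans ((le_max_left _ _).trans hR)
  have hR1' : 1 ≤ R := (le_max_right _ _).trans ((le_max_left _ _).trans hR)
  have hRR1 : (R1 : ℝ) ≤ R := by exact_mod_cast (le_max_right _ _).trans hR
  have hRpos : (0 : ℝ) < R := by exact_mod_cast hR1'
  set x : ℕ := (d * R + t.natAbs).toNat with hx
  have hx0 : (x : ℤ) = d * R + t.natAbs := Int.toNat_of_nonneg (by positivity)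
  have hxR : R ≤ x := by
    have : (R : ℤ) ≤ d * R := by nlinarith
    zify
    rw [hx0]
    have h2 : (0 : ℤ) ≤ (t.natAbs : ℤ) := by positivity
    linarith
  obtain ⟨N', hN'𝒩, hN'x, hN'C⟩ := hN x (hR1'.trans hxR)
  have hN'err : err N' ≤ δ := hN0 N' (hRN0.trans (hxR.trans hN'x)) hN'𝒩
  have h1 := S4 R N' (by
    have h2 : (x : ℤ) ≤ N' := by exact_mod_cast hN'x
    rw [hx0] at h2
    have h3 : -t ≤ t.natAbs := by rw [← Int.abs_eq_natAbs]; exact neg_le_abs t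
    linarith)
  have hxr : (x : ℝ) = d * R + t.natAbs := by
    calc (x : ℝ) = ((x : ℤ) : ℝ) := by norm_cast
      _ = ((d * (R : ℤ) + (t.natAbs : ℤ) : ℤ) : ℝ) := by rw [hx0]
      _ = d * R + t.natAbs := by
        rw [Int.cast_add, Int.cast_mul, Int.cast_natCast, Int.cast_natCast]
  have h2 : (κ + err N') * N' ≤ (κ + δ) * (C * (d * R + t.natAbs)) := by
    have h3 : (N' : ℝ) ≤ C * (d * R + t.natAbs) := by rw [← hxr]; exact hN'C
    have h4 : (0 : ℝ) ≤ N' := by positivity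
    calc (κ + err N') * N' ≤ (κ + δ) * N' := mul_le_mul_of_nonneg_right (by linarith) h4
      _ ≤ _ := mul_le_mul_of_nonneg_left h3 (by linarith)
  have h4 : ‖∑ m ∈ Finset.Icc 1 R, ∑ i : Fin M, V ((m : ℤ) + D * ((i : ℕ) : ℤ))‖ ≤
      t.natAbs * M + (η * M * R + M * ((κ + δ) * (C * (d * R + t.natAbs)))) := by
    have e3 : ∑ m ∈ Finset.Icc 1 R, ∑ i : Fin M, V ((m : ℤ) + D * ((i : ℕ) : ℤ)) =
        ∑ m ∈ Finset.Icc 1 R, Z (d * (m : ℤ) - t) := Finset.sum_congr rfl fun m _ => S3 (m : ℤ)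
    rw [e3]
    refine (norm_sum_le _ _).trans (h1.trans ?_)
    have := mul_le_mul_of_nonneg_left h2 hMpos.le
    linarith
  have h5 : ‖∑ m ∈ Finset.Icc 1 R, V (m : ℤ)‖ ≤
      2 * (D * M) + t.natAbs + η * R + (κ + δ) * (C * (d * R + t.natAbs)) := by
    have h6 := S2 R
    have h7 : ‖(M : ℂ) * ∑ m ∈ Finset.Icc 1 R, V (m : ℤ)‖ ≤
        M * (2 * (D * M) + t.natAbs + η * R + (κ + δ) * (C * (d * R + t.natAbs))) := by
      have h8 := norm_sub_norm_le ((M : ℂ) * ∑ m ∈ Finset.Icc 1 R, V (m : ℤ))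
        (∑ m ∈ Finset.Icc 1 R, ∑ i : Fin M, V ((m : ℤ) + D * ((i : ℕ) : ℤ)))
      have h9 : (M : ℝ) * (2 * (D * M) + t.natAbs + η * R + (κ + δ) * (C * (d * R + t.natAbs))) =
          M * (2 * (D * M)) + (t.natAbs * M + (η * M * R +
          M * ((κ + δ) * (C * (d * R + t.natAbs))))) := by ring
      rw [h9]
      linarith
    rw [norm_mul, Complex.norm_natCast] at h7
    exact le_of_mul_le_mul_left h7 hMpos
  have h6 := norm_sub_norm_le (c * ∑ m ∈ Finset.Icc 1 R, U (m : ℤ)) (∑ m ∈ Finset.Icc 1 R, V (m : ℤ))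
  rw [norm_mul] at h6
  have h7 := S1 R
  have hδ1 : δ ≤ 1 := min_le_left _ _
  have hδε : δ * (C * d) ≤ ε / 2 := by
    have h8 : δ ≤ ε / (2 * (C * d + 1)) := min_le_right _ _
    have h9 : 0 ≤ C * (d : ℝ) := by positivity
    calc δ * (C * d) ≤ ε / (2 * (C * d + 1)) * (C * d) := mul_le_mul_of_nonneg_right h8 h9
      _ ≤ ε / 2 := by
        rw [div_mul_eq_mul_div, div_le_div_iff₀ (by positivity) (by positivity)]
        nlinarith
  have hKR : K0 ≤ ε / 2 * R := by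
    have h8 : 2 * K0 / ε ≤ R := hR1.trans hRR1
    rw [div_le_iff₀ hε] at h8
    linarith
  have h8 : 2 * ((k : ℝ) * (a + (θ * ((R : ℝ) + a) + B))) =
      2 * k * θ * R + 2 * (k * (a + (θ * a + B))) := by ring
  have h9 : (κ + δ) * (C * (d * R + t.natAbs)) ≤
      C * d * κ * R + ε / 2 * R + (κ + 1) * (C * t.natAbs) := by
    have h10 : δ * (C * d) * R ≤ ε / 2 * R := mul_le_mul_of_nonneg_right hδε hRpos.le
    have h11 : (κ + δ) * (C * t.natAbs) ≤ (κ + 1) * (C * t.natAbs) :=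
      mul_le_mul_of_nonneg_right (by linarith) (by positivity)
    nlinarith
  have h10 : (2 * k * θ + η + C * d * κ + ε) * R =
      2 * k * θ * R + η * R + C * d * κ * R + (ε / 2 * R + ε / 2 * R) := by ring
  rw [h10]
  rw [hK0] at hKR
  change ‖c‖ * ‖∑ m ∈ Finset.Icc 1 R, U (m : ℤ)‖ ≤ _
  linarith

end Q132.CS
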