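import Mathlib

set_option autoImplicit false

/-!
# Mean values of multiplicative functions with values in `[0, 1]`
-/

open Filter Topology Finset

namespace Q132.CS

lemma sum_mul_coprime {a b : ℕ} (ha : 0 < a) (hb : 0 < b) (hab : Nat.Coprime a b) (F G : ℕ → ℝ)
    (hF : Function.Periodic F a) (hG : Function.Periodic G b) :
    ∑ n ∈ Finset.range (a * b), F n * G n =
      (∑ n ∈ Finset.range a, F n) * ∑ n ∈ Finset.range b, G n := by
  rw [Finset.sum_mul_sum, ← Finset.sum_product']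
  have hinj : Set.InjOn (fun n : ℕ => (n % a, n % b)) (Finset.range (a * b) : Set ℕ) := by
    intro n hn m hm h
    simp only [Prod.mk.injEq] at h
    have h1 : n ≡ m [MOD a * b] := (Nat.modEq_and_modEq_iff_modEq_mul hab).1 ⟨h.1, h.2⟩
    exact Nat.ModEq.eq_of_lt_of_lt h1 (Finset.mem_range.1 (Finset.mem_coe.1 hn))
      (Finset.mem_range.1 (Finset.mem_coe.1 hm))
  have himg : (Finset.range (a * b)).image (fun n : ℕ => (n % a, n % b)) =
      Finset.range a ×ˢ Finset.range b := by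
    refine Finset.eq_of_subset_of_card_le ?_ ?_
    · intro z hz
      obtain ⟨n, _, rfl⟩ := Finset.mem_image.1 hz
      exact Finset.mem_product.2 ⟨Finset.mem_range.2 (Nat.mod_lt _ ha), Finset.mem_range.2 (Nat.mod_lt _ hb)⟩
    · rw [Finset.card_image_of_injOn hinj]
      simp
  rw [← himg, Finset.sum_image hinj]
  refine Finset.sum_congr rfl fun n _ => ?_
  simp only
  rw [hF.map_mod_nat, hG.map_mod_nat]

/-- the local factor -/
noncomputable def ph (g : ℕ → ℝ) (p n : ℕ) : ℝ := if p ∣ n ∧ ¬ p ^ 2 ∣ n then g p else 1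

lemma ph_periodic (g : ℕ → ℝ) (p : ℕ) : Function.Periodic (ph g p) (p ^ 2) := by
  intro n
  unfold ph
  have h1 : p ∣ n + p ^ 2 ↔ p ∣ n := (Nat.dvd_add_left (Dvd.intro_left p (by ring)))
  have h2 : p ^ 2 ∣ n + p ^ 2 ↔ p ^ 2 ∣ n := (Nat.dvd_add_left (dvd_refl _))
  simp only [h1, h2]

lemma ph_sum (g : ℕ → ℝ) {p : ℕ} (hp : p.Prime) :
    ∑ n ∈ Finset.range (p ^ 2), ph g p n = (p : ℝ) ^ 2 * (1 - ((p : ℝ) - 1) * (1 - g p) / (p : ℝ) ^ 2) := by
  have hfil : (Finset.range (p ^ 2)).filter (fun n => p ∣ n ∧ ¬ p ^ 2 ∣ n) =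
      (Finset.Ico 1 p).image (fun i => p * i) := by
    ext n
    rw [Finset.mem_filter, Finset.mem_range, Finset.mem_image]
    constructor
    · rintro ⟨h1, ⟨i, rfl⟩, h2⟩
      refine ⟨i, Finset.mem_Ico.2 ⟨?_, ?_⟩, rfl⟩
      · rcases Nat.eq_zero_or_pos i with h | h
        · exact absurd (by rw [h]; simp) h2
        · exact h
      · rw [sq] at h1
        exact lt_of_mul_lt_mul_left h1 (Nat.zero_le _)
    · rintro ⟨i, hi, rfl⟩
      rw [Finset.mem_Ico] at hi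
      refine ⟨by rw [sq]; exact Nat.mul_lt_mul_of_pos_left hi.2 hp.pos, Dvd.intro _ rfl, ?_⟩
      intro h
      rw [sq] at h
      have := Nat.dvd_of_mul_dvd_mul_left hp.pos h
      exact absurd (Nat.le_of_dvd hi.1 this) (by omega)
  have hcard : ((Finset.range (p ^ 2)).filter (fun n => p ∣ n ∧ ¬ p ^ 2 ∣ n)).card = p - 1 := by
    rw [hfil, Finset.card_image_of_injective _ (fun i j h => Nat.eq_of_mul_eq_mul_left hp.pos h), Nat.card_Ico]
  have h1 : ∀ n, ph g p n = 1 - (if p ∣ n ∧ ¬ p ^ 2 ∣ n then 1 - g p else 0) := by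
    intro n; unfold ph; split_ifs <;> ring
  have h2 : ∑ n ∈ Finset.range (p ^ 2), (if p ∣ n ∧ ¬ p ^ 2 ∣ n then 1 - g p else 0) =
      ((p : ℝ) - 1) * (1 - g p) := by
    rw [← Finset.sum_filter, Finset.sum_const, hcard, nsmul_eq_mul, Nat.cast_sub hp.one_lt.le]
    push_cast
    ring
  have h3 : ∑ n ∈ Finset.range (p ^ 2), (1 : ℝ) = (p : ℝ) ^ 2 := by simp
  rw [Finset.sum_congr rfl fun n _ => h1 n, Finset.sum_sub_distrib, h2, h3]
  have : (p : ℝ) ≠ 0 := by exact_mod_cast hp.ne_zero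
  push_cast
  field_simp

lemma prod_periodic (g : ℕ → ℝ) (P : Finset ℕ) :
    Function.Periodic (fun n => ∏ p ∈ P, ph g p n) (∏ p ∈ P, p ^ 2) := by
  intro n
  refine Finset.prod_congr rfl fun p hp => ?_
  obtain ⟨c, hc⟩ := Finset.dvd_prod_of_mem (fun p => p ^ 2) hp
  rw [hc, mul_comm]
  exact (ph_periodic g p).nat_mul c n

lemma prod_sum (g : ℕ → ℝ) (P : Finset ℕ) (hP : ∀ p ∈ P, p.Prime) :
    ∑ n ∈ Finset.range (∏ p ∈ P, p ^ 2), ∏ p ∈ P, ph g p n =
      (((∏ p ∈ P, p ^ 2 : ℕ) : ℝ)) * ∏ p ∈ P, (1 - ((p : ℝ) - 1) * (1 - g p) / (p : ℝ) ^ 2) := by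
  classical
  induction P using Finset.induction_on with
  | empty => simp
  | insert q P hq ih =>
    have hPp : ∀ p ∈ P, p.Prime := fun p hp => hP p (Finset.mem_insert_of_mem hp)
    have hqp : q.Prime := hP q (Finset.mem_insert_self _ _)
    have hcop : Nat.Coprime (q ^ 2) (∏ p ∈ P, p ^ 2) := by
      refine Nat.Coprime.prod_right fun p hp => ?_
      refine Nat.Coprime.pow _ _ ((Nat.coprime_primes hqp (hPp p hp)).2 ?_)
      rintro rfl
      exact hq hp
    have hpos : 0 < ∏ p ∈ P, p ^ 2 := Finset.prod_pos fun p hp => pow_pos (hPp p hp).pos 2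
    rw [Finset.prod_insert hq]
    have h1 : ∀ n, ∏ p ∈ insert q P, ph g p n = ph g q n * ∏ p ∈ P, ph g p n := fun n =>
      Finset.prod_insert hq
    rw [Finset.sum_congr rfl fun n _ => h1 n,
      sum_mul_coprime (pow_pos hqp.pos 2) hpos hcop _ _ (ph_periodic g q) (prod_periodic g P),
      ph_sum g hqp, ih hPp, Finset.prod_insert hq]
    push_cast
    ring

lemma le_prod {g : ℕ → ℝ} (h0 : ∀ n, 0 ≤ g n) (h1 : ∀ n, g n ≤ 1) (hg1 : g 1 = 1)
    (hm : ∀ m n, Nat.Coprime m n → g (m * n) = g m * g n) (P : Finset ℕ) (hP : ∀ p ∈ P, p.Prime)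
    {n : ℕ} (hn : 0 < n) : g n ≤ ∏ p ∈ P, ph g p n := by
  classical
  set B := P.filter (fun p => p ∣ n ∧ ¬ p ^ 2 ∣ n) with hB
  have hprod : ∏ p ∈ P, ph g p n = ∏ p ∈ B, g p := by
    rw [hB, Finset.prod_filter]
    rfl
  have hBA : B ⊆ n.primeFactors := by
    intro p hp
    rw [hB, Finset.mem_filter] at hp
    exact Nat.mem_primeFactors.2 ⟨hP p hp.1, hp.2.1, hn.ne'⟩
  have hfac : ∀ p ∈ B, g (p ^ n.factorization p) = g p := by
    intro p hp
    rw [hB, Finset.mem_filter] at hp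
    have hpp := hP p hp.1
    have e1 : 1 ≤ n.factorization p := (hpp.pow_dvd_iff_le_factorization hn.ne').1 (by rw [pow_one]; exact hp.2.1)
    have e2 : ¬ 2 ≤ n.factorization p := fun h => hp.2.2 ((hpp.pow_dvd_iff_le_factorization hn.ne').2 h)
    have e3 : n.factorization p = 1 := by omega
    rw [e3, pow_one]
  rw [hprod, Nat.multiplicative_factorization g hm hg1 hn.ne', Finsupp.prod, Nat.support_factorization,
    ← Finset.prod_sdiff hBA, ← Finset.prod_congr rfl hfac]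
  refine mul_le_of_le_one_left (Finset.prod_nonneg fun _ _ => h0 _)
    (Finset.prod_le_one (fun _ _ => h0 _) fun _ _ => h1 _)

lemma sum_period (Ψ : ℕ → ℝ) {Q : ℕ} (h : Function.Periodic Ψ Q) (J : ℕ) :
    ∑ n ∈ Finset.range (Q * J), Ψ n = J * ∑ n ∈ Finset.range Q, Ψ n := by
  induction J with
  | zero => simp
  | succ J ih =>
    rw [mul_add, mul_one, Finset.sum_range_add, ih]
    have : ∀ x, Ψ (Q * J + x) = Ψ x := by
      intro x
      have := h.nat_mul J x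
      rw [Nat.cast_id] at this
      rw [mul_comm J Q] at this
      rw [add_comm]; exact this
    rw [Finset.sum_congr rfl fun x _ => this x]
    push_cast
    ring

/-- **Mean value zero.** -/
theorem mean_zero {g : ℕ → ℝ} (h0 : ∀ n, 0 ≤ g n) (h1 : ∀ n, g n ≤ 1) (hg1 : g 1 = 1)
    (hm : ∀ m n, Nat.Coprime m n → g (m * n) = g m * g n)
    (hdiv : ¬ Summable fun p : Nat.Primes => (1 - g p) / ((p : ℕ) : ℝ)) :
    Tendsto (fun N : ℕ => (∑ n ∈ Finset.Icc 1 N, g n) / (N : ℝ)) atTop (𝓝 0) := by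
  classical
  have hbig : ∀ c : ℝ, ∃ s : Finset Nat.Primes, c < ∑ p ∈ s, (1 - g p) / ((p : ℕ) : ℝ) := by
    intro c
    by_contra hc
    push Not at hc
    exact hdiv (summable_of_sum_le (fun p => div_nonneg (sub_nonneg.2 (h1 _)) (by positivity)) hc)
  rw [Metric.tendsto_atTop]
  intro ε hε
  obtain ⟨s, hs⟩ := hbig (2 * (-Real.log (ε / 2)))
  set P : Finset ℕ := s.map ⟨fun p : Nat.Primes => (p : ℕ), Subtype.val_injective⟩ with hP
  have hPp : ∀ p ∈ P, p.Prime := by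
    intro p hp
    obtain ⟨q, _, rfl⟩ := Finset.mem_map.1 hp
    exact q.2
  have hsum : -Real.log (ε / 2) < ∑ p ∈ P, ((p : ℝ) - 1) * (1 - g p) / (p : ℝ) ^ 2 := by
    have h2 : ∑ p ∈ s, (1 - g p) / ((p : ℕ) : ℝ) = ∑ p ∈ P, (1 - g p) / (p : ℝ) := by
      rw [hP, Finset.sum_map]; rfl
    rw [h2] at hs
    have h3 : ∑ p ∈ P, (1 - g p) / (p : ℝ) ≤ 2 * ∑ p ∈ P, ((p : ℝ) - 1) * (1 - g p) / (p : ℝ) ^ 2 := by
      rw [Finset.mul_sum]
      refine Finset.sum_le_sum fun p hp => ?_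
      have hp2 : (2 : ℝ) ≤ p := by exact_mod_cast (hPp p hp).two_le
      have h4 : 0 ≤ 1 - g p := sub_nonneg.2 (h1 _)
      rw [mul_div_assoc', div_le_div_iff₀ (by positivity) (by positivity)]
      have h5 : 0 ≤ (1 - g p) * (p : ℝ) := by positivity
      nlinarith
    linarith
  set Q : ℕ := ∏ p ∈ P, p ^ 2 with hQ
  have hQpos : 0 < Q := Finset.prod_pos fun p hp => pow_pos (hPp p hp).pos 2
  set pr0 : ℝ := ∏ p ∈ P, (1 - ((p : ℝ) - 1) * (1 - g p) / (p : ℝ) ^ 2) with hpr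
  have hpr0 : pr0 < ε / 2 := by
    have h2 : pr0 ≤ ∏ p ∈ P, Real.exp (-(((p : ℝ) - 1) * (1 - g p) / (p : ℝ) ^ 2)) := by
      refine Finset.prod_le_prod (fun p hp => ?_) fun p hp => ?_
      · have hp2 : (2 : ℝ) ≤ p := by exact_mod_cast (hPp p hp).two_le
        rw [sub_nonneg, div_le_one (by positivity)]
        have h3 := h0 p
        have h4 : ((p : ℝ) - 1) * (1 - g p) ≤ ((p : ℝ) - 1) * 1 :=
          mul_le_mul_of_nonneg_left (by linarith) (by linarith)
        nlinarith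
      · have := Real.add_one_le_exp (-(((p : ℝ) - 1) * (1 - g p) / (p : ℝ) ^ 2))
        linarith
    rw [← Real.exp_sum, Finset.sum_neg_distrib] at h2
    refine h2.trans_lt ?_
    rw [← Real.exp_log (show 0 < ε / 2 by positivity)]
    exact Real.exp_lt_exp.2 (by linarith)
  have hprnn : 0 ≤ pr0 := by
    refine Finset.prod_nonneg fun p hp => ?_
    have hp2 : (2 : ℝ) ≤ p := by exact_mod_cast (hPp p hp).two_le
    rw [sub_nonneg, div_le_one (by positivity)]
    have h3 := h0 p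
    have h4 : ((p : ℝ) - 1) * (1 - g p) ≤ ((p : ℝ) - 1) * 1 :=
      mul_le_mul_of_nonneg_left (by linarith) (by linarith)
    nlinarith
  obtain ⟨N0, hN0⟩ := exists_nat_gt (Q * pr0 / (ε / 2))
  refine ⟨max N0 1, fun N hN => ?_⟩
  have hN1 : 1 ≤ N := (le_max_right _ _).trans hN
  have hNr : (0 : ℝ) < N := by exact_mod_cast hN1
  have hNN0 : (N0 : ℝ) ≤ N := by exact_mod_cast (le_max_left _ _).trans hN
  rw [Real.dist_eq, sub_zero, abs_of_nonneg (div_nonneg (Finset.sum_nonneg fun _ _ => h0 _) hNr.le),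
    div_lt_iff₀ hNr]
  have hΨ0 : ∀ n, 0 ≤ ∏ p ∈ P, ph g p n := fun n => Finset.prod_nonneg fun p _ => by
    unfold ph; split_ifs
    · exact h0 _
    · exact zero_le_one
  have h2 : ∑ n ∈ Finset.Icc 1 N, g n ≤ ∑ n ∈ Finset.range (Q * (N / Q + 1)), ∏ p ∈ P, ph g p n := by
    calc ∑ n ∈ Finset.Icc 1 N, g n ≤ ∑ n ∈ Finset.Icc 1 N, ∏ p ∈ P, ph g p n :=
          Finset.sum_le_sum fun n hn => le_prod h0 h1 hg1 hm P hPp (Finset.mem_Icc.1 hn).1
      _ ≤ _ := by
        refine Finset.sum_le_sum_of_subset_of_nonneg (fun n hn => ?_) fun n _ _ => hΨ0 n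
        rw [Finset.mem_Icc] at hn
        rw [Finset.mem_range]
        have := Nat.lt_mul_div_succ N hQpos
        omega
  rw [sum_period _ (prod_periodic g P), prod_sum g P hPp] at h2
  have h3 : (((N / Q + 1 : ℕ) : ℝ)) * (Q * pr0) ≤ N * pr0 + Q * pr0 := by
    push_cast
    have h4 : ((N / Q : ℕ) : ℝ) * Q ≤ N := by exact_mod_cast Nat.div_mul_le_self N Q
    nlinarith
  have h4 : Q * pr0 < ε / 2 * N := by
    have h5 : Q * pr0 / (ε / 2) < N := hN0.trans_le hNN0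
    rw [div_lt_iff₀ (by positivity)] at h5
    linarith
  have h5 : N * pr0 < N * (ε / 2) := mul_lt_mul_of_pos_left hpr0 hNr
  calc ∑ n ∈ Finset.Icc 1 N, g n ≤ _ := h2
    _ ≤ N * pr0 + Q * pr0 := h3
    _ < ε * N := by linarith

end Q132.CS
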