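import Pool.Agent.Q132.CS.H
import Pool.Agent.Q132.CS.I

set_option autoImplicit false

/-!
# Second moments over a progression of shifts and the transfer theorem for bounded multiplicative functions
-/

open Filter Topology Finset

namespace Q132.CS

/-- the functions together with their complex conjugates -/
noncomputable def dbl {k : ℕ} (F : Fin k → ℤ → ℂ) : Fin (k + k) → ℤ → ℂ :=
  Fin.addCases F (fun i m => starRingEnd ℂ (F i m))

/-- the averages -/
noncomputable def av {k : ℕ} (F : Fin k → ℤ → ℂ) (h : Fin k → ℤ) (N : ℕ) : ℂ :=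
  (1 / (N : ℂ)) * ∑ n ∈ Finset.Icc 1 N, ∏ i, F i ((n : ℤ) + h i)

/-- the correlations of `F` and its conjugates vanish for `D`-separated shifts in `S` -/
def VanC {k : ℕ} (F : Fin k → ℤ → ℂ) (l : Filter ℕ) (S : Set ℤ) (D : ℤ) : Prop :=
  ∀ h : Fin (k + k) → ℤ, Function.Injective h → (∀ u, h u ∈ S) → (∀ u v, u ≠ v → D ≤ |h u - h v|) →
    Tendsto (av (dbl F) h) l (𝓝 0)

lemma prod_dbl {k : ℕ} (F : Fin k → ℤ → ℂ) (h h' : Fin k → ℤ) (n : ℤ) :
    ∏ u, dbl F u (n + (Fin.addCases h h' : Fin (k + k) → ℤ) u) =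
      (∏ i, F i (n + h i)) * starRingEnd ℂ (∏ i, F i (n + h' i)) := by
  rw [Fin.prod_univ_add, map_prod]
  unfold dbl
  simp only [Fin.addCases_left, Fin.addCases_right]

lemma sq_momentC {k : ℕ} (F : Fin k → ℤ → ℂ) (hF : ∀ j m, ‖F j m‖ ≤ 1) {l : Filter ℕ} {S : Set ℤ}
    {D : ℤ} (hV : VanC F l S D) (h : Fin k → ℤ) (hinj : Function.Injective h) {d t : ℤ} (hd : 0 < d)
    (hdD : D ≤ d) (D0 : ℕ) (hD0 : ∀ i j, |h i - h j| < D0) (M : ℕ)
    (hS : ∀ i < M, ∀ j, t + d * (D0 * (i : ℤ) + h j) ∈ S) :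
    ∃ err : ℕ → ℝ, Tendsto err l (𝓝 0) ∧ ∀ N : ℕ,
      ∑ n ∈ Finset.Icc 1 N, ‖∑ i : Fin M, ∏ j, F j ((n : ℤ) + (t + d * (D0 * ((i : ℕ) : ℤ) + h j)))‖ ^ 2 ≤
        (M + err N) * N := by
  classical
  let φ : Fin M → Fin k → ℤ := fun i j => t + d * (D0 * ((i : ℕ) : ℤ) + h j)
  let Y : ℤ → Fin M → ℂ := fun n i => ∏ j, F j (n + φ i j)
  have hY1 : ∀ n i, ‖Y n i‖ ≤ 1 := by
    intro n i
    simp only [Y, norm_prod]
    exact Finset.prod_le_one (fun _ _ => norm_nonneg _) fun j _ => hF j _
  -- the shifts are separated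
  have hsep : ∀ (i i' : Fin M) (j j' : Fin k), (i ≠ i' ∨ j ≠ j') → d ≤ |φ i j - φ i' j'| := by
    intro i i' j j' hne
    have h1 : φ i j - φ i' j' = d * ((D0 : ℤ) * (((i : ℕ) : ℤ) - ((i' : ℕ) : ℤ)) + (h j - h j')) := by
      simp only [φ]; ring
    have h2 : (D0 : ℤ) * (((i : ℕ) : ℤ) - ((i' : ℕ) : ℤ)) + (h j - h j') ≠ 0 := by
      intro h0
      by_cases hii : i = i'
      · subst hii
        rcases hne with hne | hne
        · exact hne rfl
        · rw [sub_self, mul_zero, zero_add] at h0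
          exact hne (hinj (by linarith))
      · have h3 := hD0 j' j
        have h4 : (D0 : ℤ) * (((i : ℕ) : ℤ) - ((i' : ℕ) : ℤ)) = h j' - h j := by linarith
        rw [← h4, abs_mul] at h3
        have h5 : (1 : ℤ) ≤ |((i : ℕ) : ℤ) - ((i' : ℕ) : ℤ)| := by
          apply Int.one_le_abs
          intro hc
          apply hii
          apply Fin.ext
          omega
        have h6 : |(D0 : ℤ)| = D0 := abs_of_nonneg (by positivity)
        rw [h6] at h3
        have h7 : (0 : ℤ) ≤ D0 := by positivity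
        nlinarith
    rw [h1, abs_mul, abs_of_pos hd]
    have h3 := Int.one_le_abs h2
    nlinarith
  have hoff : ∀ z ∈ (Finset.univ : Finset (Fin M × Fin M)).filter (fun z => z.1 ≠ z.2),
      Tendsto (fun N : ℕ => ‖(1 / (N : ℂ)) * ∑ n ∈ Finset.Icc 1 N, Y (n : ℤ) z.1 *
        starRingEnd ℂ (Y (n : ℤ) z.2)‖) l (𝓝 0) := by
    rintro ⟨i, i'⟩ hz
    have hne : i ≠ i' := (Finset.mem_filter.1 hz).2
    have hsep' : ∀ u v, u ≠ v → d ≤ |(Fin.addCases (φ i) (φ i') : Fin (k + k) → ℤ) u -
        (Fin.addCases (φ i) (φ i') : Fin (k + k) → ℤ) v| := by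
      intro u v huv
      induction u using Fin.addCases with
      | left u =>
        induction v using Fin.addCases with
        | left v =>
          simp only [Fin.addCases_left]
          exact hsep i i u v (Or.inr fun hc => huv (by rw [hc]))
        | right v =>
          simp only [Fin.addCases_left, Fin.addCases_right]
          exact hsep i i' u v (Or.inl hne)
      | right u =>
        induction v using Fin.addCases with
        | left v =>
          simp only [Fin.addCases_left, Fin.addCases_right]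
          exact hsep i' i u v (Or.inl hne.symm)
        | right v =>
          simp only [Fin.addCases_right]
          exact hsep i' i' u v (Or.inr fun hc => huv (by rw [hc]))
    have h1 := hV (Fin.addCases (φ i) (φ i')) (by
      intro u v huv
      by_contra hne'
      have h2 := hsep' u v hne'
      rw [huv, sub_self, abs_zero] at h2
      linarith) (by
      intro u
      induction u using Fin.addCases with
      | left u => simp only [Fin.addCases_left]; exact hS i i.2 u
      | right u => simp only [Fin.addCases_right]; exact hS i' i'.2 u)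
      (fun u v huv => hdD.trans (hsep' u v huv))
    have h2 := h1.norm
    rw [norm_zero] at h2
    refine h2.congr fun N => ?_
    unfold av
    congr 2
    refine Finset.sum_congr rfl fun n _ => ?_
    exact prod_dbl F (φ i) (φ i') n
  refine ⟨fun N => ∑ z ∈ (Finset.univ : Finset (Fin M × Fin M)).filter (fun z => z.1 ≠ z.2),
    ‖(1 / (N : ℂ)) * ∑ n ∈ Finset.Icc 1 N, Y (n : ℤ) z.1 * starRingEnd ℂ (Y (n : ℤ) z.2)‖, ?_, ?_⟩
  · have := tendsto_finsetSum _ hoff
    simpa using this
  · intro N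
    rcases Nat.eq_zero_or_pos N with hN | hN
    · subst hN
      simp
    have hNr : (0 : ℝ) < N := by exact_mod_cast hN
    have e1 : (((∑ n ∈ Finset.Icc 1 N, ‖∑ i : Fin M, Y (n : ℤ) i‖ ^ 2 : ℝ)) : ℂ) =
        ∑ z : Fin M × Fin M, ∑ n ∈ Finset.Icc 1 N, Y (n : ℤ) z.1 * starRingEnd ℂ (Y (n : ℤ) z.2) := by
      rw [Finset.sum_comm]
      push_cast
      refine Finset.sum_congr rfl fun n _ => ?_
      rw [← Complex.mul_conj', map_sum, Finset.sum_mul_sum, ← Finset.univ_product_univ,
        Finset.sum_product]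
    have e2 : ∑ n ∈ Finset.Icc 1 N, ‖∑ i : Fin M, Y (n : ℤ) i‖ ^ 2 ≤
        ∑ z : Fin M × Fin M, ‖∑ n ∈ Finset.Icc 1 N, Y (n : ℤ) z.1 * starRingEnd ℂ (Y (n : ℤ) z.2)‖ := by
      have h1 : ‖(((∑ n ∈ Finset.Icc 1 N, ‖∑ i : Fin M, Y (n : ℤ) i‖ ^ 2 : ℝ)) : ℂ)‖ =
          ∑ n ∈ Finset.Icc 1 N, ‖∑ i : Fin M, Y (n : ℤ) i‖ ^ 2 := by
        rw [Complex.norm_real, Real.norm_of_nonneg (Finset.sum_nonneg fun _ _ => by positivity)]
      rw [← h1, e1]
      exact norm_sum_le _ _
    refine e2.trans ?_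
    rw [← Finset.sum_filter_add_sum_filter_not (Finset.univ : Finset (Fin M × Fin M))
      (fun z => z.1 ≠ z.2), add_comm, add_mul]
    refine add_le_add ?_ ?_
    · have h1 : ∀ z ∈ (Finset.univ : Finset (Fin M × Fin M)).filter (fun z => ¬ z.1 ≠ z.2),
          ‖∑ n ∈ Finset.Icc 1 N, Y (n : ℤ) z.1 * starRingEnd ℂ (Y (n : ℤ) z.2)‖ ≤ N := by
        intro z _
        refine (norm_sum_le _ _).trans ?_
        have h2 : ∀ n ∈ Finset.Icc 1 N, ‖Y (n : ℤ) z.1 * starRingEnd ℂ (Y (n : ℤ) z.2)‖ ≤ 1 := by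
          intro n _
          rw [norm_mul, RCLike.norm_conj]
          exact mul_le_one₀ (hY1 _ _) (norm_nonneg _) (hY1 _ _)
        refine (Finset.sum_le_sum h2).trans ?_
        simp
      refine (Finset.sum_le_sum h1).trans ?_
      rw [Finset.sum_const, nsmul_eq_mul]
      refine mul_le_mul_of_nonneg_right ?_ hNr.le
      have h3 : ((Finset.univ : Finset (Fin M × Fin M)).filter (fun z => ¬ z.1 ≠ z.2)).card ≤ M := by
        have h4 : ((Finset.univ : Finset (Fin M × Fin M)).filter (fun z => ¬ z.1 ≠ z.2)) =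
            (Finset.univ : Finset (Fin M)).image (fun i => (i, i)) := by
          ext ⟨a, b⟩
          simp only [Finset.mem_filter, Finset.mem_univ, true_and, not_not, Finset.mem_image,
            Prod.mk.injEq]
          constructor
          · intro hab; exact ⟨a, rfl, hab⟩
          · rintro ⟨c, h1, h2⟩; rw [← h1, ← h2]
        rw [h4]
        refine Finset.card_image_le.trans ?_
        simp
      exact_mod_cast h3
    · rw [Finset.sum_mul]
      refine le_of_eq (Finset.sum_congr rfl fun z _ => ?_)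
      rw [norm_mul, norm_div, norm_one, Complex.norm_natCast]
      field_simp

end Q132.CS
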