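import Pool.Agent.Q132.CS.J

set_option autoImplicit false

/-!
# The transfer theorem for bounded multiplicative functions
-/

open Filter Topology Finset

namespace Q132.CS

/-- `S` contains long progressions whose difference is a given large prime -/
def PRich (S : Set ℤ) : Prop :=
  ∀ K : ℕ, ∃ P : ℕ, ∀ p ≥ P, p.Prime → ∃ t : ℤ, ∀ i : ℕ, i < K * p → t + p * i ∈ S

lemma tendsto_of_boundC {k : ℕ} (F : Fin k → ℤ → ℂ) (h : Fin k → ℤ)
    (hb : ∀ ε : ℝ, 0 < ε → ∃ R0 : ℕ, ∀ R ≥ R0, ‖∑ n ∈ Finset.Icc 1 R, ∏ i, F i ((n : ℤ) + h i)‖ ≤ ε * R) :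
    Tendsto (av F h) atTop (𝓝 0) := by
  rw [Metric.tendsto_atTop]
  intro ε hε
  obtain ⟨R0, hR0⟩ := hb (ε / 2) (by positivity)
  refine ⟨max R0 1, fun R hR => ?_⟩
  have h1 := hR0 R ((le_max_left _ _).trans hR)
  have h2 : (0 : ℝ) < R := by exact_mod_cast (le_max_right R0 1).trans hR
  unfold av
  rw [dist_zero_right, norm_mul, norm_div, norm_one, Complex.norm_natCast, one_div,
    inv_mul_lt_iff₀ h2]
  nlinarith

/-- the extension of a function on the positive integers -/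
def exz (g : ℕ → ℂ) (m : ℤ) : ℂ := g m.toNat

/-- infinitely many primes at which all functions are large -/
theorem core {k : ℕ} (g : Fin k → ℕ → ℂ) (hm : ∀ i m n, Nat.Coprime m n → g i (m * n) = g i m * g i n)
    (hb : ∀ i n, ‖g i n‖ ≤ 1)
    (hinf : ∀ P : ℕ, ∃ p ≥ P, p.Prime ∧ ∀ i, 1 / 2 ≤ ‖g i p‖) {S : Set ℤ} (hS : PRich S) {D : ℤ}
    {𝒩 : Set ℕ} (h𝒩 : Scales 𝒩) (hV : VanC (fun i => exz (g i)) (atTop ⊓ 𝓟 𝒩) S D)
    (h : Fin k → ℤ) (hinj : Function.Injective h) :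
    Tendsto (av (fun i => exz (g i)) h) atTop (𝓝 0) := by
  classical
  set F : Fin k → ℤ → ℂ := fun i => exz (g i) with hF
  have hFb : ∀ j m, ‖F j m‖ ≤ 1 := fun j m => hb j _
  obtain ⟨C, hC0, hC⟩ : ∃ C : ℝ, 0 ≤ C ∧ ∀ x : ℕ, 1 ≤ x → ∃ N ∈ 𝒩, x ≤ N ∧ (N : ℝ) ≤ C * x := by
    obtain ⟨C, hC⟩ := h𝒩
    refine ⟨max C 0, le_max_right _ _, fun x hx => ?_⟩
    obtain ⟨N', h1, h2, h3⟩ := hC x hx
    exact ⟨N', h1, h2, h3.trans (mul_le_mul_of_nonneg_right (le_max_left _ _) (by positivity))⟩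
  apply tendsto_of_boundC
  intro ε hε
  obtain ⟨a, ha⟩ := bound_H (Finset.univ.image h)
  have ha' : ∀ j, |h j| ≤ (a : ℤ) := fun j => ha _ (Finset.mem_image_of_mem h (Finset.mem_univ j))
  set D0 : ℕ := 2 * a + 1 with hD0
  have hD0' : ∀ i j, |h i - h j| < D0 := by
    intro i j
    have h1 := abs_sub (h i) (h j)
    have h2 := ha' i
    have h3 := ha' j
    push_cast [hD0]
    linarith
  -- the parameters
  set ω : ℝ := (1 / 2) ^ k with hω
  have hω0 : 0 < ω := by positivity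
  set η : ℝ := ε * ω / 4 with hη
  have hη0 : 0 < η := by positivity
  obtain ⟨K1, hK1⟩ := exists_nat_ge (C / (η * η))
  obtain ⟨P1, hP1⟩ := hS (D0 * (K1 + 1))
  obtain ⟨P2, hP2⟩ := exists_nat_ge (2 * k / η)
  obtain ⟨p, hpP, hp, hpg⟩ := hinf (max P1 (max (P2 + 1) D.toNat))
  have hpP1 : P1 ≤ p := (le_max_left _ _).trans hpP
  have hpP2 : P2 + 1 ≤ p := ((le_max_left _ _).trans (le_max_right _ _)).trans hpP
  have hpD : D ≤ (p : ℤ) := by
    have : D.toNat ≤ p := ((le_max_right _ _).trans (le_max_right _ _)).trans hpP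
    omega
  obtain ⟨t0, ht0⟩ := hP1 p hpP1 hp
  have hp0 : (0 : ℝ) < p := by exact_mod_cast hp.pos
  set M : ℕ := (K1 + 1) * p with hM
  have hMpos : 0 < M := Nat.mul_pos (by omega) hp.pos
  have hMr : (0 : ℝ) < M := by exact_mod_cast hMpos
  set t : ℤ := t0 + p * a with ht
  have hmem : ∀ i < M, ∀ j, t + (p : ℤ) * (D0 * (i : ℤ) + h j) ∈ S := by
    intro i hi j
    have h1 := abs_le.1 (ha' j)
    have h2 : t + (p : ℤ) * (D0 * (i : ℤ) + h j) = t0 + p * (((a : ℤ) + D0 * i + h j).toNat : ℤ) := by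
      rw [Int.toNat_of_nonneg (by
        have : (0 : ℤ) ≤ (D0 : ℤ) * i := by positivity
        linarith), ht]
      ring
    rw [h2]
    refine ht0 _ ?_
    have h3 : D0 * (K1 + 1) * p = D0 * M := by rw [hM]; ring
    rw [h3]
    have h4 : D0 * (i + 1) ≤ D0 * M := Nat.mul_le_mul_left _ hi
    have h5 : ((a : ℤ) + D0 * i + h j) < ((D0 * (i + 1) : ℕ) : ℤ) := by
      push_cast [hD0]
      linarith
    have h7 : 0 < D0 * (i + 1) := Nat.mul_pos (by omega) (by omega)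
    have h6 : ((a : ℤ) + D0 * i + h j).toNat < D0 * (i + 1) := by
      rw [Int.toNat_lt' h7]
      exact h5
    exact h6.trans_le h4
  obtain ⟨err, herr, hsum⟩ := sq_momentC F hFb hV h hinj (d := (p : ℤ)) (t := t) (by exact_mod_cast hp.pos)
    hpD D0 hD0' M hmem
  set Z : ℤ → ℂ := fun n => ∑ i : Fin M, ∏ j, F j (n + (t + (p : ℤ) * (D0 * ((i : ℕ) : ℤ) + h j))) with hZ
  set c : ℂ := ∏ i, g i p with hc
  have hc1 : ‖c‖ ≤ 1 := by
    rw [hc, norm_prod]
    exact Finset.prod_le_one (fun _ _ => norm_nonneg _) fun j _ => hb j _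
  have hcω : ω ≤ ‖c‖ := by
    rw [hc, norm_prod, hω]
    have h1 : ∏ i : Fin k, (1 / 2 : ℝ) ≤ ∏ i, ‖g i p‖ :=
      Finset.prod_le_prod (fun _ _ => by norm_num) fun i _ => hpg i
    simpa using h1
  obtain ⟨R0, hR0⟩ := assembleC F hFb c hc1 (d := (p : ℤ)) (by exact_mod_cast hp.pos) t h D0 M hMpos
    (θ := 1 / p) (B := 0) (fun x => x ≤ 0 ∨ (p : ℤ) ∣ x) (by
      intro R
      have h1 : (Finset.Icc 1 R).filter (fun x : ℕ => (x : ℤ) ≤ 0 ∨ (p : ℤ) ∣ (x : ℤ)) ⊆
          (Finset.Icc 1 (R / p)).image (fun i => p * i) := by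
        intro x hx
        rw [Finset.mem_filter, Finset.mem_Icc] at hx
        obtain ⟨⟨h1, h2⟩, h3⟩ := hx
        have h4 : p ∣ x := by
          rcases h3 with h3 | h3
          · omega
          · exact_mod_cast h3
        obtain ⟨i, rfl⟩ := h4
        refine Finset.mem_image.2 ⟨i, Finset.mem_Icc.2 ⟨?_, ?_⟩, rfl⟩
        · rcases Nat.eq_zero_or_pos i with h | h
          · rw [h] at h1; simp at h1
          · exact h
        · rw [Nat.le_div_iff_mul_le hp.pos, mul_comm]; exact h2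
      have h2 : (((Finset.Icc 1 R).filter (fun x : ℕ => (x : ℤ) ≤ 0 ∨ (p : ℤ) ∣ (x : ℤ))).card : ℝ) ≤
          ((R / p : ℕ) : ℝ) := by
        have := (Finset.card_le_card h1).trans Finset.card_image_le
        rw [Nat.card_Icc, Nat.add_sub_cancel] at this
        exact_mod_cast this
      refine h2.trans ?_
      have := @Nat.cast_div_le ℝ _ _ _ R p
      rw [add_zero, one_div, inv_mul_eq_div]
      exact this) (by
      intro m hmb
      rw [hc, ← Finset.prod_mul_distrib]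
      refine Finset.prod_congr rfl fun j _ => ?_
      have h1 := hmb j
      push Not at h1
      obtain ⟨h1, h2⟩ := h1
      simp only [hF, exz]
      have h3 : ((p : ℤ) * (m + h j)).toNat = p * (m + h j).toNat := by
        have h4 : (p : ℤ) * (m + h j) = ((p * (m + h j).toNat : ℕ) : ℤ) := by
          rw [Nat.cast_mul, Int.toNat_of_nonneg h1.le]
        rw [h4, Int.toNat_natCast]
      rw [h3]
      refine hm j p _ ((Nat.Prime.coprime_iff_not_dvd hp).2 fun h4 => h2 ?_)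
      have h5 : ((m + h j).toNat : ℤ) = m + h j := Int.toNat_of_nonneg h1.le
      rw [← h5]
      exact_mod_cast h4) 𝒩 hC0 hC (η := η) hη0.le (fun n => ‖Z n‖ ^ 2 / (η * M ^ 2))
    (fun n => by positivity) (by
      intro n
      change ‖Z n‖ ≤ η * M + M * (‖Z n‖ ^ 2 / (η * M ^ 2))
      have h1 : M * (‖Z n‖ ^ 2 / (η * (M : ℝ) ^ 2)) = ‖Z n‖ ^ 2 / (η * M) := by
        field_simp
      rw [h1]
      have h2 : 0 < η * (M : ℝ) := by positivity
      have h3 : 2 * (η * M) * ‖Z n‖ ≤ (η * M) ^ 2 + ‖Z n‖ ^ 2 := two_mul_le_add_sq _ _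
      have h4 : 2 * ‖Z n‖ ≤ η * M + ‖Z n‖ ^ 2 / (η * M) := by
        have h5 : η * M + ‖Z n‖ ^ 2 / (η * M) = ((η * M) ^ 2 + ‖Z n‖ ^ 2) / (η * M) := by
          field_simp
        rw [h5, le_div_iff₀ h2]
        linarith
      have h5 := norm_nonneg (Z n)
      linarith) (κ := 1 / (η * M)) (by positivity) (fun N => err N / (η * M ^ 2)) (by
      have := herr.div_const (η * (M : ℝ) ^ 2)
      rwa [zero_div] at this) (by
      intro N
      rw [← Finset.sum_div, div_le_iff₀ (by positivity)]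
      have h1 := hsum N
      have h2 : (1 / (η * M) + err N / (η * M ^ 2)) * N * (η * M ^ 2) = (M + err N) * N := by
        field_simp
      rw [h2]
      exact h1) (ε := η) hη0 (by positivity) le_rfl
  refine ⟨R0, fun R hR => ?_⟩
  have h1 := hR0 R hR
  have hRnn : (0 : ℝ) ≤ R := by positivity
  have h2 : 2 * (k : ℝ) * (1 / p) ≤ η := by
    have h3 : (P2 : ℝ) ≤ p := by exact_mod_cast (by omega : P2 ≤ p)
    have h4 : 2 * (k : ℝ) / η ≤ p := hP2.trans h3
    rw [div_le_iff₀ hη0] at h4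
    rw [mul_one_div, div_le_iff₀ hp0]
    linarith
  have h3 : C * ((p : ℤ) : ℝ) * (1 / (η * M)) ≤ η := by
    have h4 : C / (η * η) ≤ K1 + 1 := hK1.trans (by linarith)
    rw [div_le_iff₀ (by positivity)] at h4
    have h5 : (M : ℝ) = (K1 + 1) * p := by rw [hM]; push_cast; ring
    rw [mul_one_div, div_le_iff₀ (by positivity), h5]
    push_cast
    nlinarith
  have h4 : (2 * (k : ℝ) * (1 / p) + η + C * ((p : ℤ) : ℝ) * (1 / (η * M)) + η) * R ≤ ε * ω * R := by
    refine mul_le_mul_of_nonneg_right ?_ hRnn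
    have : ε * ω = 4 * η := by rw [hη]; ring
    rw [this]
    linarith
  have h5 : ω * ‖∑ m ∈ Finset.Icc 1 R, ∏ j, F j ((m : ℤ) + h j)‖ ≤
      ‖c‖ * ‖∑ m ∈ Finset.Icc 1 R, ∏ j, F j ((m : ℤ) + h j)‖ :=
    mul_le_mul_of_nonneg_right hcω (norm_nonneg _)
  have h6 : ω * ‖∑ m ∈ Finset.Icc 1 R, ∏ j, F j ((m : ℤ) + h j)‖ ≤ ω * (ε * R) := by
    calc _ ≤ _ := h5
      _ ≤ _ := h1
      _ ≤ _ := h4
      _ = _ := by ring
  exact le_of_mul_le_mul_left h6 hω0

/-- a factor of small absolute value -/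
theorem small_factor {k : ℕ} (g : Fin k → ℕ → ℂ) (hb : ∀ i n, ‖g i n‖ ≤ 1) (h0 : ∀ i, g i 0 = 0)
    (j : Fin k) (hj : Tendsto (fun N : ℕ => (∑ n ∈ Finset.Icc 1 N, ‖g j n‖) / (N : ℝ)) atTop (𝓝 0))
    (h : Fin k → ℤ) : Tendsto (av (fun i => exz (g i)) h) atTop (𝓝 0) := by
  classical
  have key : ∀ N : ℕ, ‖∑ n ∈ Finset.Icc 1 N, ∏ i, exz (g i) ((n : ℤ) + h i)‖ ≤
      (∑ n ∈ Finset.Icc 1 N, ‖g j n‖) + (h j).natAbs := by
    intro N
    have h1 : ∀ n : ℕ, ‖∏ i, exz (g i) ((n : ℤ) + h i)‖ ≤ ‖g j ((n : ℤ) + h j).toNat‖ := by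
      intro n
      rw [← Finset.mul_prod_erase Finset.univ _ (Finset.mem_univ j), norm_mul, norm_prod]
      exact mul_le_of_le_one_right (norm_nonneg _)
        (Finset.prod_le_one (fun _ _ => norm_nonneg _) fun i _ => hb i _)
    refine (norm_sum_le _ _).trans ((Finset.sum_le_sum fun n _ => h1 n).trans ?_)
    have h2 : ∑ n ∈ Finset.Icc 1 N, ‖g j ((n : ℤ) + h j).toNat‖ =
        ∑ n ∈ (Finset.Icc 1 N).filter (fun n : ℕ => 1 ≤ ((n : ℤ) + h j).toNat),
          ‖g j ((n : ℤ) + h j).toNat‖ := by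
      symm
      refine Finset.sum_filter_of_ne fun n _ hne => ?_
      by_contra hc
      have : ((n : ℤ) + h j).toNat = 0 := by omega
      rw [this, h0 j, norm_zero] at hne
      exact hne rfl
    rw [h2]
    have hinj : Set.InjOn (fun n : ℕ => ((n : ℤ) + h j).toNat)
        ((Finset.Icc 1 N).filter (fun n : ℕ => 1 ≤ ((n : ℤ) + h j).toNat) : Finset ℕ) := by
      intro x hx y hy hxy
      have hx' := (Finset.mem_filter.1 (Finset.mem_coe.1 hx)).2
      have hy' := (Finset.mem_filter.1 (Finset.mem_coe.1 hy)).2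
      simp only at hxy hx' hy'
      omega
    rw [← Finset.sum_image (f := fun m => ‖g j m‖) hinj]
    have h3 : ((Finset.Icc 1 N).filter (fun n : ℕ => 1 ≤ ((n : ℤ) + h j).toNat)).image
        (fun n : ℕ => ((n : ℤ) + h j).toNat) ⊆ Finset.Icc 1 (N + (h j).natAbs) := by
      intro m hm
      obtain ⟨n, hn, rfl⟩ := Finset.mem_image.1 hm
      obtain ⟨hn1, hn2⟩ := Finset.mem_filter.1 hn
      rw [Finset.mem_Icc] at hn1 ⊢
      refine ⟨hn2, ?_⟩
      have := Int.le_natAbs (a := h j)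
      omega
    refine (Finset.sum_le_sum_of_subset_of_nonneg h3 fun _ _ _ => norm_nonneg _).trans ?_
    induction (h j).natAbs with
    | zero => simp
    | succ b ih =>
      rw [← add_assoc, Finset.sum_Icc_succ_top (by omega)]
      have := hb j (N + b + 1)
      push_cast
      linarith
  apply tendsto_of_boundC
  intro ε hε
  rw [Metric.tendsto_atTop] at hj
  obtain ⟨N0, hN0⟩ := hj (ε / 2) (by positivity)
  obtain ⟨N1, hN1⟩ := exists_nat_ge (2 * (h j).natAbs / ε)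
  refine ⟨max (max N0 1) N1, fun R hR => (key R).trans ?_⟩
  have hR0 : N0 ≤ R := (le_max_left _ _).trans ((le_max_left _ _).trans hR)
  have hR1 : 1 ≤ R := (le_max_right _ _).trans ((le_max_left _ _).trans hR)
  have hR2 : (N1 : ℝ) ≤ R := by exact_mod_cast (le_max_right _ _).trans hR
  have hRpos : (0 : ℝ) < R := by exact_mod_cast hR1
  have h1 := hN0 R hR0
  rw [dist_zero_right, Real.norm_eq_abs] at h1
  have h2 := (le_abs_self _).trans_lt h1
  rw [div_lt_iff₀ hRpos] at h2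
  have h3 := hN1.trans hR2
  rw [div_le_iff₀ hε] at h3
  linarith

/-- **The transfer theorem.** -/
theorem transfer {k : ℕ} (g : Fin k → ℕ → ℂ) (hm : ∀ i m n, Nat.Coprime m n → g i (m * n) = g i m * g i n)
    (hb : ∀ i n, ‖g i n‖ ≤ 1) (h1 : ∀ i, g i 1 = 1) (h0 : ∀ i, g i 0 = 0) {S : Set ℤ} (hS : PRich S)
    {D : ℤ} {𝒩 : Set ℕ} (h𝒩 : Scales 𝒩) (hV : VanC (fun i => exz (g i)) (atTop ⊓ 𝓟 𝒩) S D)
    (h : Fin k → ℤ) (hinj : Function.Injective h) :
    Tendsto (av (fun i => exz (g i)) h) atTop (𝓝 0) := by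
  classical
  by_cases hdiv : ∃ j, ¬ Summable fun p : Nat.Primes => (1 - ‖g j p‖) / ((p : ℕ) : ℝ)
  · obtain ⟨j, hj⟩ := hdiv
    refine small_factor g hb h0 j (mean_zero (g := fun n => ‖g j n‖) (fun _ => norm_nonneg _) (hb j)
      (by simp only [h1 j, norm_one]) (fun m n hmn => ?_) hj) h
    simp only [hm j m n hmn, norm_mul]
  · push Not at hdiv
    refine core g hm hb ?_ hS h𝒩 hV h hinj
    intro P
    by_contra hc
    push Not at hc
    have hs : Summable fun p : Nat.Primes => 2 * ∑ j, (1 - ‖g j p‖) / ((p : ℕ) : ℝ) :=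
      (summable_sum fun j _ => hdiv j).mul_left 2
    refine Nat.Primes.not_summable_one_div (Summable.of_norm_bounded_eventually hs ?_)
    have hfin : {p : Nat.Primes | (p : ℕ) < P}.Finite :=
      (Set.finite_lt_nat P).preimage Subtype.val_injective.injOn
    have hev : ∀ᶠ p : Nat.Primes in cofinite, ¬ (p : ℕ) < P := hfin.compl_mem_cofinite
    refine hev.mono fun p hp => ?_
    push Not at hp
    obtain ⟨i, hi⟩ := hc p hp p.2
    have hp0 : (0 : ℝ) < ((p : ℕ) : ℝ) := by exact_mod_cast p.2.pos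
    rw [Real.norm_of_nonneg (by positivity)]
    have h2 : (1 - ‖g i p‖) / ((p : ℕ) : ℝ) ≤ ∑ j, (1 - ‖g j p‖) / ((p : ℕ) : ℝ) :=
      Finset.single_le_sum (f := fun j => (1 - ‖g j p‖) / ((p : ℕ) : ℝ))
        (fun j _ => div_nonneg (sub_nonneg.2 (hb j _)) hp0.le) (Finset.mem_univ i)
    have h3 : 1 / 2 / ((p : ℕ) : ℝ) ≤ (1 - ‖g i p‖) / ((p : ℕ) : ℝ) := by
      refine div_le_div_of_nonneg_right ?_ hp0.le
      linarith
    have h4 : 1 / ((p : ℕ) : ℝ) = 2 * (1 / 2 / ((p : ℕ) : ℝ)) := by ring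
    linarith

end Q132.CS
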